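import Pool.Agent.Results.MP_377342_al.Extension
import Pool.Agent.U955.QN.Main

/-!
# MP_377342_al, Q2: extension of invariant `HA`-neutral subspaces with prescribed spectrum
-/

set_option autoImplicit false

namespace Pool.Agent.Results.MP_377342_al.PrescribedSpectrum

open Quaternion MulOpposite Matrix Pool.Agent.R713
open Pool.Agent.Results.MP_377342_al.Extension (Sub Invariant Neutral Nonneg Nonpos lin qherm
  skew real_of_herm finiteV)

variable {n : ℕ}

/-- `μ` is an eigenvalue of `A|_M`: `A x = x μ` for some nonzero `x ∈ M` -/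
def EigOn (A : Matrix (Fin n) (Fin n) ℍ[ℝ]) (M : Sub n) (μ : ℍ[ℝ]) : Prop :=
  ∃ x ∈ M, x ≠ 0 ∧ A *ᵥ x = fun i => x i * μ

/-- the first three properties of a c-set: a set of eigenvalues of `A` with nonzero real part, closed
under similarity, which does not contain the negative of one of its elements -/
structure PreCSet (A : Matrix (Fin n) (Fin n) ℍ[ℝ]) (S : Set ℍ[ℝ]) : Prop where
  eig : ∀ μ ∈ S, EigOn A ⊤ μ
  re_ne : ∀ μ ∈ S, μ.re ≠ 0
  sim : ∀ μ ∈ S, ∀ q : ℍ[ℝ], q ≠ 0 → q⁻¹ * μ * q ∈ S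
  neg : ∀ μ ∈ S, -μ ∉ S

/-- a c-set of `A`: inclusion-maximal with these properties -/
structure IsCSet (A : Matrix (Fin n) (Fin n) ℍ[ℝ]) (S : Set ℍ[ℝ]) : Prop extends PreCSet A S where
  maximal : ∀ S' : Set ℍ[ℝ], PreCSet A S' → S ⊆ S' → S' = S

/-- the eigenvalues of `A|_M` with nonzero real part -/
def spec (A : Matrix (Fin n) (Fin n) ℍ[ℝ]) (M : Sub n) : Set ℍ[ℝ] := {μ | EigOn A M μ ∧ μ.re ≠ 0}

lemma cset {A : Matrix (Fin n) (Fin n) ℍ[ℝ]} {S : Set ℍ[ℝ]} (h : IsCSet A S) :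
    Pool.Agent.U955.QN.CSet (lin A) S := by
  refine ⟨⟨?_, h.re_ne, h.sim, h.neg⟩, ?_⟩
  · intro μ hμ
    obtain ⟨x, -, h0, hx⟩ := h.eig μ hμ
    exact ⟨x, trivial, h0, hx⟩
  · intro S' hS'
    refine h.maximal S' ⟨?_, hS'.re_ne, hS'.sim, hS'.neg⟩
    intro μ hμ
    obtain ⟨x, -, h0, hx⟩ := hS'.eig μ hμ
    exact ⟨x, trivial, h0, hx⟩

theorem main (G A : Matrix (Fin n) (Fin n) ℍ[ℝ]) (hG : Gᴴ = G)
    (hA : ∀ x y, star (A *ᵥ x) ⬝ᵥ (G *ᵥ y) = -(star x ⬝ᵥ (G *ᵥ (A *ᵥ y))))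
    (hrad : ∀ x, G *ᵥ x = 0 → A *ᵥ x = 0)
    (N : Sub n) (hN : Invariant A N) (hneu : Neutral G N) (S : Set ℍ[ℝ]) (hS : IsCSet A S)
    (hS0 : spec A N ⊆ S) :
    ∃ L : Sub n, N ≤ L ∧ Invariant A L ∧ Extension.Maximal (Nonneg G) L ∧ spec A L = S := by
  have hn : ∀ M : Sub n, Nonneg G M ↔
      QNonneg (fun x y : Fin n → ℍ[ℝ] => star x ⬝ᵥ (G *ᵥ y)) M := by
    intro M
    constructor
    · intro h x hx
      obtain ⟨r, hr, he⟩ := h x hx
      simp only [he]
      rw [Quaternion.re_coe]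
      exact hr
    · intro h x hx
      exact ⟨_, h x hx, real_of_herm hG x⟩
  obtain ⟨L, h1, h2, h3, h4, h5⟩ := Pool.Agent.U955.QN.extend_cset (qherm G hG) (lin A) hA
    (by
      intro x hx
      apply hrad
      ext1 i
      have h1 : star (Pi.single i 1 : Fin n → ℍ[ℝ]) ⬝ᵥ (G *ᵥ x) = 0 := by
        rw [(qherm G hG).symm x (Pi.single i 1), hx, star_zero]
      have h2 : star (Pi.single i 1 : Fin n → ℍ[ℝ]) = Pi.single i 1 := by
        ext1 j
        rw [Pi.star_apply]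
        rcases eq_or_ne j i with rfl | hj
        · rw [Pi.single_eq_same, star_one]
        · rw [Pi.single_eq_of_ne hj, star_zero]
      rw [h2, single_dotProduct, one_mul] at h1
      rw [h1]; rfl)
    N hN hneu S (cset hS) (fun μ hre hμ => hS0 ⟨hμ, hre⟩)
  refine ⟨L, h1, h2, ⟨(hn L).2 h3, fun M hM hM' => h4 M hM ((hn M).1 hM')⟩, ?_⟩
  ext μ
  exact h5 μ

/-- Let `H` be invertible with `H^* = -H`, let `A` be `H`-Hamiltonian and let `N` be an `A`-invariant
`HA`-neutral subspace such that the set `S₀` of the eigenvalues of `A|_N` with nonzero real part does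
not contain the negative of one of its elements. For every c-set `S ⊇ S₀` there are `A`-invariant
subspaces containing `N` that are maximal `HA`-nonnegative and maximal `HA`-nonpositive,
respectively, such that for each of them the set of eigenvalues with nonzero real part is `S`. -/
theorem result (n : ℕ) (H A : Matrix (Fin n) (Fin n) ℍ[ℝ]) (hHu : IsUnit H) (hH : Hᴴ = -H)
    (hA : H * A = -(Aᴴ * H)) (N : Sub n) (hN : Invariant A N) (hneu : Neutral (H * A) N)
    (_hN0 : ∀ μ ∈ spec A N, -μ ∉ spec A N) (S : Set ℍ[ℝ]) (hS : IsCSet A S)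
    (hS0 : spec A N ⊆ S) :
    (∃ L : Sub n, N ≤ L ∧ Invariant A L ∧ Extension.Maximal (Nonneg (H * A)) L ∧ spec A L = S) ∧
    (∃ L : Sub n, N ≤ L ∧ Invariant A L ∧ Extension.Maximal (Nonpos (H * A)) L ∧ spec A L = S) := by
  have hG : (H * A)ᴴ = H * A := by
    rw [Matrix.conjTranspose_mul, hH, mul_neg, ← hA]
  have hrad : ∀ x, (H * A) *ᵥ x = 0 → A *ᵥ x = 0 := by
    intro x hx
    obtain ⟨u, rfl⟩ := hHu
    have h1 : (↑u⁻¹ : Matrix (Fin n) (Fin n) ℍ[ℝ]) *ᵥ (((u : Matrix (Fin n) (Fin n) ℍ[ℝ]) * A) *ᵥ x)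
        = A *ᵥ x := by
      rw [Matrix.mulVec_mulVec, ← mul_assoc, Units.inv_mul, one_mul]
    rw [← h1, hx, Matrix.mulVec_zero]
  refine ⟨main (H * A) A hG (skew H A hA) hrad N hN hneu S hS hS0, ?_⟩
  have hG' : (-(H * A))ᴴ = -(H * A) := by rw [Matrix.conjTranspose_neg, hG]
  obtain ⟨L, h1, h2, ⟨h3, h4⟩, h5⟩ := main (-(H * A)) A hG' (by
      intro x y
      rw [Matrix.neg_mulVec, Matrix.neg_mulVec, dotProduct_neg, dotProduct_neg, skew H A hA])
    (by
      intro x hx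
      apply hrad
      rw [Matrix.neg_mulVec] at hx
      exact neg_eq_zero.1 hx)
    N hN (by
      intro x hx y hy
      rw [Matrix.neg_mulVec, dotProduct_neg, hneu x hx y hy, neg_zero]) S hS hS0
  have hn : ∀ M : Sub n, Nonneg (-(H * A)) M ↔ Nonpos (H * A) M := by
    intro M
    constructor
    · intro h x hx
      obtain ⟨r, hr, he⟩ := h x hx
      refine ⟨-r, by linarith, ?_⟩
      rw [Matrix.neg_mulVec, dotProduct_neg] at he
      rw [Quaternion.coe_neg, ← he, neg_neg]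
    · intro h x hx
      obtain ⟨r, hr, he⟩ := h x hx
      refine ⟨-r, by linarith, ?_⟩
      rw [Matrix.neg_mulVec, dotProduct_neg, he, Quaternion.coe_neg]
  exact ⟨L, h1, h2, ⟨(hn L).1 h3, fun M hM hM' => h4 M hM ((hn M).2 hM')⟩, h5⟩

end Pool.Agent.Results.MP_377342_al.PrescribedSpectrum
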